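import Pool.Agent.Run7.h462.PA.Stm
import Pool.Agent.Run7.h462.KT.Fmk

/-!
# Project PA, piece FMG: the lower bound for the tuples on average
-/

set_option autoImplicit false

namespace Run7.h56.PA

open Finset Filter Topology
open Run7.h462.PA
open Run7.h462.KT (sh inj mem_inj window_lower)
open Run7.h994.PR (fi fi_nonneg fi_le_one window_one)
open scoped Polynomial

theorem swapS (F : ℤ[X]) (k A H : ℕ) (S : Finset ℕ) :
    ∑ h ∈ inj k H, ∑ y ∈ Icc 1 (A - H), (PS S F (sh y h) : ℝ) =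
      ∑ n ∈ S, ∑ y ∈ Icc 1 (A - H),
        (#((inj k H).filter (fun h => ∀ i, Nat.Prime (F.eval (n : ℤ) + sh y h i).toNat)) : ℝ) := by
  classical
  have h1 : ∀ (h : Fin k → ℕ) (y : ℕ), (PS S F (sh y h) : ℝ) =
      ∑ n ∈ S, if (∀ i, Nat.Prime (F.eval (n : ℤ) + sh y h i).toNat) then (1 : ℝ) else 0 := by
    intro h y
    unfold PS
    rw [card_filter]
    push_cast
    rfl
  have h2 : ∀ (n y : ℕ), (#((inj k H).filter (fun h => ∀ i, Nat.Prime (F.eval (n : ℤ) + sh y h i).toNat)) : ℝ) =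
      ∑ h ∈ inj k H, if (∀ i, Nat.Prime (F.eval (n : ℤ) + sh y h i).toNat) then (1 : ℝ) else 0 := by
    intro n y
    rw [card_filter]
    push_cast
    rfl
  simp only [h1, h2]
  calc ∑ h ∈ inj k H, ∑ y ∈ Icc 1 (A - H), ∑ n ∈ S,
        (if (∀ i, Nat.Prime (F.eval (n : ℤ) + sh y h i).toNat) then (1 : ℝ) else 0) =
      ∑ h ∈ inj k H, ∑ n ∈ S, ∑ y ∈ Icc 1 (A - H),
        (if (∀ i, Nat.Prime (F.eval (n : ℤ) + sh y h i).toNat) then (1 : ℝ) else 0) := by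
        apply sum_congr rfl
        intro h _
        rw [Finset.sum_comm]
    _ = ∑ n ∈ S, ∑ h ∈ inj k H, ∑ y ∈ Icc 1 (A - H),
        (if (∀ i, Nat.Prime (F.eval (n : ℤ) + sh y h i).toNat) then (1 : ℝ) else 0) := by
        rw [Finset.sum_comm]
    _ = _ := by
        apply sum_congr rfl
        intro n _
        rw [Finset.sum_comm]

/-- the windows of one `n` -/
theorem one_n (f : ℕ → ℝ) (hf : ∀ a, 0 ≤ f a) {k A H : ℕ} (hk : 1 ≤ k) (hA : 0 < A)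
    {ρ T : ℝ} (hρ : ρ ≤ 1 / 4) (hT : 0 ≤ T)
    (h1 : (1 - 2 * ρ) * T ≤ ∑ y ∈ Icc 1 (A - H), f y)
    (h2 : ∑ y ∈ Icc 1 H, f y ≤ ρ * T) (h3 : (k : ℝ) * A ≤ ρ * (H * T)) :
    ((1 - 4 * ρ) * (H * T)) ^ k ≤
      (A : ℝ) ^ (k - 1) * ∑ y ∈ Icc 1 (A - H), max ((∑ j ∈ range H, f (y + j)) - k) 0 ^ k := by
  obtain ⟨Y, hY⟩ : ∃ Y, Y = A - H := ⟨_, rfl⟩
  rw [← hY] at h1 ⊢
  have hshift : ∑ y ∈ Icc 1 Y, ∑ j ∈ range H, f (y + j) =
      ∑ y ∈ range Y, ∑ j ∈ range H, f (y + 1 + j) := by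
    apply Finset.sum_nbij' (fun y => y - 1) (fun y => y + 1)
    · intro y hy
      rw [mem_Icc] at hy
      rw [mem_range]
      omega
    · intro y hy
      rw [mem_range] at hy
      rw [mem_Icc]
      omega
    · intro y hy
      rw [mem_Icc] at hy
      omega
    · intro y hy
      simp
    · intro y hy
      rw [mem_Icc] at hy
      have e : y - 1 + 1 = y := by omega
      rw [e]
  have hw := window_one f hf Y H
  rw [← hshift] at hw
  have hH0 : (0 : ℝ) ≤ H := Nat.cast_nonneg _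
  have hYA : (Y : ℝ) ≤ A := by
    rw [hY]
    exact_mod_cast Nat.sub_le A H
  have h4 : (1 - 3 * ρ) * (H * T) ≤ ∑ y ∈ Icc 1 Y, ∑ j ∈ range H, f (y + j) := by
    refine le_trans ?_ hw
    have : (1 - 3 * ρ) * T ≤ ∑ a ∈ Icc 1 Y, f a - ∑ a ∈ Icc 1 H, f a := by linarith
    calc (1 - 3 * ρ) * (H * T) = H * ((1 - 3 * ρ) * T) := by ring
      _ ≤ _ := mul_le_mul_of_nonneg_left this hH0
  have h5 : (1 - 4 * ρ) * (H * T) ≤ ∑ y ∈ Icc 1 Y, max ((∑ j ∈ range H, f (y + j)) - k) 0 := by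
    have h6 : ∑ y ∈ Icc 1 Y, ((∑ j ∈ range H, f (y + j)) - (k : ℝ)) ≤
        ∑ y ∈ Icc 1 Y, max ((∑ j ∈ range H, f (y + j)) - (k : ℝ)) 0 :=
      sum_le_sum fun y _ => le_max_left _ _
    rw [sum_sub_distrib, sum_const, Nat.card_Icc, Nat.add_sub_cancel, nsmul_eq_mul] at h6
    have h7 : (Y : ℝ) * k ≤ ρ * (H * T) := by
      calc (Y : ℝ) * k ≤ A * k := by gcongr
        _ = k * A := mul_comm _ _
        _ ≤ _ := h3
    linarith
  have hY0 : 0 < Y := by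
    by_contra hcon
    have hY00 : Y = 0 := by omega
    rw [hY00, Icc_eq_empty (by norm_num), sum_empty] at h1
    have hT0 : T = 0 := by nlinarith
    rw [hT0, mul_zero, mul_zero] at h3
    have hA' : (0 : ℝ) < A := by exact_mod_cast hA
    have hk' : (1 : ℝ) ≤ k := by exact_mod_cast hk
    nlinarith
  have hYr : (0 : ℝ) < Y := by exact_mod_cast hY0
  have hpm := pow_sum_div_card_le_sum_pow (s := Icc 1 Y)
    (f := fun y => max ((∑ j ∈ range H, f (y + j)) - (k : ℝ)) 0) (fun q _ => le_max_right _ _) (k - 1)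
  have hk' : k - 1 + 1 = k := by omega
  rw [hk', Nat.card_Icc, Nat.add_sub_cancel, div_le_iff₀ (by positivity)] at hpm
  have h6 : 0 ≤ (1 - 4 * ρ) * (H * T) := mul_nonneg (by linarith) (mul_nonneg hH0 hT)
  calc ((1 - 4 * ρ) * (H * T)) ^ k
      ≤ (∑ y ∈ Icc 1 Y, max ((∑ j ∈ range H, f (y + j)) - (k : ℝ)) 0) ^ k :=
        pow_le_pow_left₀ h6 h5 k
    _ ≤ (∑ y ∈ Icc 1 Y, max ((∑ j ∈ range H, f (y + j)) - (k : ℝ)) 0 ^ k) * (Y : ℝ) ^ (k - 1) := hpm
    _ = (Y : ℝ) ^ (k - 1) * ∑ y ∈ Icc 1 Y, max ((∑ j ∈ range H, f (y + j)) - (k : ℝ)) 0 ^ k :=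
        mul_comm _ _
    _ ≤ _ := by
        apply mul_le_mul_of_nonneg_right
        · exact pow_le_pow_left₀ hYr.le hYA _
        · exact sum_nonneg fun y _ => pow_nonneg (le_max_right _ _) _

theorem fmg (F : ℤ[X]) (k : ℕ) (hk : 1 ≤ k) (hd1 : 1 ≤ F.natDegree) (hAA : S_AA F) : S_FMG F k := by
  intro η hη
  obtain ⟨d, hd⟩ : ∃ d : ℝ, d = F.natDegree := ⟨_, rfl⟩
  have hd1' : 1 ≤ d := by rw [hd]; exact_mod_cast hd1
  have hd0 : 0 < d := by linarith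
  have hk1 : (1 : ℝ) ≤ k := by exact_mod_cast hk
  have hk0 : (0 : ℝ) < k := by linarith
  have hm0 : 0 < min η 1 := lt_min hη one_pos
  obtain ⟨ρ, hρ⟩ : ∃ ρ : ℝ, ρ = min η 1 / (8 * k) := ⟨_, rfl⟩
  have hρ0 : 0 < ρ := by rw [hρ]; positivity
  have hρk : k * (8 * ρ) ≤ η := by
    have : k * (8 * ρ) = min η 1 := by
      rw [hρ]
      field_simp
    rw [this]
    exact min_le_left _ _
  have hρk1 : k * (8 * ρ) ≤ 1 := by
    have : k * (8 * ρ) = min η 1 := by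
      rw [hρ]
      field_simp
    rw [this]
    exact min_le_right _ _
  have hρ1 : ρ ≤ 1 / 8 := by
    have h4 : 1 * (8 * ρ) ≤ k * (8 * ρ) := by gcongr
    linarith
  refine ⟨ρ / 2, k * d / ρ, by positivity, by positivity, fun B U => ?_⟩
  obtain ⟨N1, hN1⟩ := hAA (B + 1) (U + 1) ρ hρ0
  have tend : Tendsto (fun X : ℕ => Real.log (X : ℝ)) atTop atTop :=
    Real.tendsto_log_atTop.comp tendsto_natCast_atTop_atTop
  obtain ⟨N2, hN2⟩ := eventually_atTop.1 (tend.eventually_ge_atTop (4 / ρ + 2 : ℝ))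
  refine ⟨N1 + N2 + 2, fun N hN A H b hA1 hA2 hb hH1 hH2 S hS hSU => ?_⟩
  have hL4 := hN2 N (by omega)
  have hNr : (2 : ℝ) ≤ N := by exact_mod_cast (show 2 ≤ N by omega)
  have hN0 : (0 : ℝ) < N := by linarith
  have hAA' := hN1 N (by omega)
  obtain ⟨L, hL⟩ : ∃ L, L = Real.log N := ⟨_, rfl⟩
  obtain ⟨M, hM⟩ : ∃ M : ℝ, M = (N : ℝ) ^ (F.natDegree - 1) := ⟨_, rfl⟩
  rw [← hd, ← hL] at hAA'
  rw [← hd, ← hL]
  rw [← hL] at hA1 hA2 hb hH1 hSU hL4
  rw [← hM] at hA1 hA2 hb hAA'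
  have h4ρ : 0 < 4 / ρ := by positivity
  have hL2 : 2 ≤ L := by linarith
  have hL0 : 0 < L := by linarith
  have hLρ : 4 ≤ L * ρ := by
    have : 4 / ρ ≤ L := by linarith
    rwa [div_le_iff₀ hρ0] at this
  have hM0 : 0 < M := by rw [hM]; positivity
  have hLB : 0 < L ^ B := by positivity
  have hAr : (0 : ℝ) < A := by
    by_contra hcon
    push Not at hcon
    have : (A : ℝ) * L ^ B ≤ 0 := mul_nonpos_of_nonpos_of_nonneg hcon hLB.le
    linarith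
  have hA0 : 0 < A := by exact_mod_cast hAr
  have hH0 : (0 : ℝ) < H := lt_of_lt_of_le (by positivity) hH1
  have hkd : k * (d * L) ≤ ρ * H := by
    rw [div_mul_eq_mul_div, div_le_iff₀ hρ0] at hH1
    linarith
  have hHA : (H : ℝ) ≤ A := by
    refine hH2.trans ?_
    calc ρ / 2 * (A : ℝ) ≤ 1 * A := by gcongr; linarith
      _ = A := one_mul _
  have hHAn : H ≤ A := by exact_mod_cast hHA
  have hH1' : (1 : ℝ) ≤ H := by
    have hL1 : 1 ≤ L := by linarith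
    have h1 : (1 : ℝ) * (1 * 1) ≤ k * (d * L) := by gcongr
    have h2 : ρ * (H : ℝ) ≤ 1 * H := by gcongr; linarith
    linarith
  have hdL : 0 < d * L := by positivity
  obtain ⟨T, hT⟩ : ∃ T, T = A / (d * L) := ⟨_, rfl⟩
  have hT0 : 0 < T := by rw [hT]; positivity
  have hMB : M * L ^ B ≤ M * L ^ (B + 1) := by
    apply mul_le_mul_of_nonneg_left _ hM0.le
    exact pow_le_pow_right₀ (by linarith) (by omega)
  have hb' : (|b| : ℝ) ≤ M * L ^ (B + 1) := hb.trans hMB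
  -- A - H
  have hA1r : ((A - H : ℕ) : ℝ) = A - H := by rw [Nat.cast_sub hHAn]
  obtain ⟨Ex1, hc1, hE1⟩ := hAA' (A - H) b (by
      rw [hA1r, pow_succ]
      have : (A : ℝ) ≤ (A - H) * L := by
        have h1 : (H : ℝ) ≤ 1 / 2 * A := by
          refine hH2.trans ?_
          gcongr
          linarith
        have h2 : (A - H : ℝ) * 2 ≤ (A - H) * L := by
          apply mul_le_mul_of_nonneg_left hL2
          linarith
        linarith
      calc M ≤ A * L ^ B := hA1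
        _ ≤ ((A - H) * L) * L ^ B := by gcongr
        _ = (A - H) * (L ^ B * L) := by ring) (by
      rw [hA1r]
      linarith) hb'
  -- ⌊c₀ A⌋
  have hcA : 1 ≤ ρ / 2 * A := hH1'.trans hH2
  obtain ⟨A2, hA2'⟩ : ∃ A2, A2 = ⌊ρ / 2 * (A : ℝ)⌋₊ := ⟨_, rfl⟩
  have hA2u : (A2 : ℝ) ≤ ρ / 2 * A := by rw [hA2']; exact Nat.floor_le (by positivity)
  have hA2l : ρ / 2 * A < A2 + 1 := by rw [hA2']; exact Nat.lt_floor_add_one _
  have hHA2 : H ≤ A2 := by rw [hA2']; exact Nat.le_floor hH2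
  have hA21 : (1 : ℝ) ≤ A2 := hH1'.trans (by exact_mod_cast hHA2)
  obtain ⟨Ex2, hc2, hE2⟩ := hAA' A2 b (by
      rw [pow_succ]
      have h1 : (A : ℝ) ≤ A2 * L := by
        have h2 : ρ * A ≤ 4 * A2 := by linarith
        have h3 : (A : ℝ) * 4 ≤ A * (L * ρ) := by gcongr
        have h4 : (ρ * A) * L ≤ (4 * A2) * L := by gcongr
        have h5 : (A : ℝ) * (L * ρ) = (ρ * A) * L := by ring
        have h6 : (4 * (A2 : ℝ)) * L = 4 * (A2 * L) := by ring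
        linarith
      calc M ≤ A * L ^ B := hA1
        _ ≤ (A2 * L) * L ^ B := by gcongr
        _ = A2 * (L ^ B * L) := by ring) (by
      have : (A2 : ℝ) ≤ A := by
        refine hA2u.trans ?_
        calc ρ / 2 * (A : ℝ) ≤ 1 * A := by gcongr; linarith
          _ = A := one_mul _
      linarith) hb'
  -- the exceptions
  have hU1 : N / L ^ (U + 1) ≤ ρ / 4 * #S := by
    rw [div_le_iff₀ (by positivity), pow_succ]
    calc (N : ℝ) ≤ #S * L ^ U := hSU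
      _ = #S * L ^ U * 1 := (mul_one _).symm
      _ ≤ #S * L ^ U * (ρ / 4 * L) := by
          gcongr
          linarith
      _ = _ := by ring
  have hcS : (1 - ρ) * #S ≤ (#(S \ (Ex1 ∪ Ex2)) : ℝ) := by
    have h1 : #S ≤ #(S \ (Ex1 ∪ Ex2)) + (#Ex1 + #Ex2) := by
      calc #S ≤ #((S \ (Ex1 ∪ Ex2)) ∪ (Ex1 ∪ Ex2)) := by
            apply card_le_card
            intro x hx
            rw [mem_union, Finset.mem_sdiff]
            by_cases h : x ∈ Ex1 ∪ Ex2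
            · exact Or.inr h
            · exact Or.inl ⟨hx, h⟩
        _ ≤ #(S \ (Ex1 ∪ Ex2)) + #(Ex1 ∪ Ex2) := card_union_le _ _
        _ ≤ _ := by gcongr; exact card_union_le _ _
    have h2 : (#S : ℝ) ≤ #(S \ (Ex1 ∪ Ex2)) + (#Ex1 + #Ex2) := by exact_mod_cast h1
    have h3 : (0 : ℝ) ≤ ρ * #S := mul_nonneg hρ0.le (Nat.cast_nonneg _)
    have h4 : (1 - ρ) * (#S : ℝ) = #S - ρ * #S := by ring
    have h5 : ρ / 4 * (#S : ℝ) = (ρ * #S) / 4 := by ring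
    linarith
  -- one `n`
  have hone : ∀ n ∈ S \ (Ex1 ∪ Ex2), ((1 - 4 * ρ) * (H * T)) ^ k / (A : ℝ) ^ (k - 1) ≤
      ∑ y ∈ Icc 1 (A - H), (#((inj k H).filter
        (fun h => ∀ i, Nat.Prime ((Fb F b).eval (n : ℤ) + sh y h i).toNat)) : ℝ) := by
    intro n hn
    rw [Finset.mem_sdiff, mem_union, not_or] at hn
    obtain ⟨hnS, hn1, hn2⟩ := hn
    have e1 := (abs_le.1 (hE1 n (hS hnS) hn1)).1
    have e2 := (abs_le.1 (hE2 n (hS hnS) hn2)).2
    have f1 : (1 - 2 * ρ) * T ≤ ∑ y ∈ Icc 1 (A - H), fi (Fb F b) n y := by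
      have h1 : (1 - ρ) * (((A - H : ℕ) : ℝ) / (d * L)) ≤ ∑ y ∈ Icc 1 (A - H), fi (Fb F b) n y := by
        linarith
      refine le_trans ?_ h1
      rw [hA1r, hT]
      have h2 : (1 - ρ / 2) * A ≤ A - H := by linarith
      calc (1 - 2 * ρ) * (A / (d * L)) ≤ ((1 - ρ) * (1 - ρ / 2)) * (A / (d * L)) := by
            gcongr
            have h3 : (1 - ρ) * (1 - ρ / 2) = 1 - 3 / 2 * ρ + ρ * ρ / 2 := by ring
            have h4 : 0 ≤ ρ * ρ := mul_nonneg hρ0.le hρ0.le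
            linarith
        _ = (1 - ρ) * (((1 - ρ / 2) * A) / (d * L)) := by ring
        _ ≤ _ := by
            apply mul_le_mul_of_nonneg_left _ (by linarith)
            gcongr
    have f2 : ∑ y ∈ Icc 1 H, fi (Fb F b) n y ≤ ρ * T := by
      have h1 : ∑ y ∈ Icc 1 H, fi (Fb F b) n y ≤ ∑ y ∈ Icc 1 A2, fi (Fb F b) n y :=
        sum_le_sum_of_subset_of_nonneg (Icc_subset_Icc_right hHA2) fun y _ _ => fi_nonneg _ _ _
      have h2 : ∑ y ∈ Icc 1 A2, fi (Fb F b) n y ≤ (1 + ρ) * (A2 / (d * L)) := by linarith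
      refine h1.trans (h2.trans ?_)
      rw [hT]
      calc (1 + ρ) * (A2 / (d * L)) ≤ (1 + ρ) * ((ρ / 2 * A) / (d * L)) := by gcongr
        _ = ((1 + ρ) * (ρ / 2)) * (A / (d * L)) := by ring
        _ ≤ ρ * (A / (d * L)) := by
            gcongr
            calc (1 + ρ) * (ρ / 2) ≤ 2 * (ρ / 2) := by gcongr; linarith
              _ = ρ := by ring
    have f3 : (k : ℝ) * A ≤ ρ * (H * T) := by
      rw [hT]
      calc (k : ℝ) * A = (k * (d * L)) * (A / (d * L)) := by field_simp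
        _ ≤ (ρ * H) * (A / (d * L)) := by gcongr
        _ = _ := by ring
    have h8 := one_n (fi (Fb F b) n) (fi_nonneg _ _) hk hA0 (by linarith) hT0.le f1 f2 f3
    rw [div_le_iff₀ (by positivity)]
    refine h8.trans (le_of_le_of_eq ?_ (mul_comm _ _))
    apply mul_le_mul_of_nonneg_left _ (by positivity)
    exact sum_le_sum fun y _ => window_lower (Fb F b) k n y H
  rw [swapS]
  have hsub : ∑ n ∈ S \ (Ex1 ∪ Ex2), ∑ y ∈ Icc 1 (A - H), (#((inj k H).filter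
        (fun h => ∀ i, Nat.Prime ((Fb F b).eval (n : ℤ) + sh y h i).toNat)) : ℝ) ≤
      ∑ n ∈ S, ∑ y ∈ Icc 1 (A - H), (#((inj k H).filter
        (fun h => ∀ i, Nat.Prime ((Fb F b).eval (n : ℤ) + sh y h i).toNat)) : ℝ) :=
    sum_le_sum_of_subset_of_nonneg sdiff_subset fun n _ _ => sum_nonneg fun y _ => Nat.cast_nonneg _
  refine le_trans ?_ hsub
  refine le_trans ?_ (sum_le_sum hone)
  rw [sum_const, nsmul_eq_mul]
  have hTk : (T : ℝ) ^ k / (A : ℝ) ^ (k - 1) = A / (d * L) ^ k := by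
    rw [hT, div_pow]
    have : (A : ℝ) ^ k = A ^ (k - 1) * A := by
      rw [← pow_succ]
      congr 1
      omega
    rw [this]
    field_simp
  have h9 : ((1 - 4 * ρ) * (H * T)) ^ k / (A : ℝ) ^ (k - 1) =
      (1 - 4 * ρ) ^ k * ((H : ℝ) ^ k * (A / (d * L) ^ k)) := by
    rw [← hTk, mul_pow, mul_pow]
    ring
  rw [h9]
  have h10 : 1 - η ≤ (1 - ρ) * (1 - 4 * ρ) ^ k := by
    have h6 := one_add_mul_le_pow (a := -(4 * ρ)) (by linarith) k
    have h7 : 1 + (k : ℝ) * -(4 * ρ) = 1 - k * (4 * ρ) := by ring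
    have h8 : 1 + -(4 * ρ) = 1 - 4 * ρ := by ring
    rw [h7, h8] at h6
    have h11 : (1 - ρ) * (1 - k * (4 * ρ)) ≤ (1 - ρ) * (1 - 4 * ρ) ^ k :=
      mul_le_mul_of_nonneg_left h6 (by linarith)
    refine le_trans ?_ h11
    have h12 : 1 * ρ ≤ k * ρ := by gcongr
    have h13 : 0 ≤ ρ * (k * (4 * ρ)) := by positivity
    have h14 : (1 - ρ) * (1 - k * (4 * ρ)) = 1 - ρ - 4 * (k * ρ) + ρ * (k * (4 * ρ)) := by ring
    have h15 : k * (8 * ρ) = 8 * (k * ρ) := by ring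
    linarith
  have h14 : 0 ≤ (H : ℝ) ^ k * (A / (d * L) ^ k) := by positivity
  have h15 : 0 ≤ (1 - 4 * ρ) ^ k := pow_nonneg (by linarith) k
  calc (1 - η) * (A * (H : ℝ) ^ k * (#S / (d * L) ^ k))
      = (1 - η) * (#S * ((H : ℝ) ^ k * (A / (d * L) ^ k))) := by ring
    _ ≤ ((1 - ρ) * (1 - 4 * ρ) ^ k) * (#S * ((H : ℝ) ^ k * (A / (d * L) ^ k))) :=
        mul_le_mul_of_nonneg_right h10 (by positivity)
    _ = ((1 - ρ) * #S) * ((1 - 4 * ρ) ^ k * ((H : ℝ) ^ k * (A / (d * L) ^ k))) := by ring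
    _ ≤ _ := mul_le_mul_of_nonneg_right hcS (by positivity)

end Run7.h56.PA
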