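import Pool.Agent.Run7.h462.PA.Stm
import Pool.Agent.Q236.CR.Stm

/-!
# Project PA, piece MSX: primes in almost all short intervals, in a long range
-/

set_option autoImplicit false

namespace Run7.h56.PA

open Finset Filter Topology
open Run7.h462.PA
open Pool.Agent.Q236.CR (S_SIA cc)
open Pool.Agent.H469R2.NK (e e_zero)

theorem ev_logpow (C : ℕ) {a : ℝ} (ha : 0 < a) :
    ∀ᶠ X : ℕ in atTop, Real.log X ^ C ≤ (X : ℝ) ^ a := by
  have h := (isLittleO_log_rpow_rpow_atTop (C : ℝ) ha).bound one_pos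
  have h3 := tendsto_natCast_atTop_atTop.eventually (h.and (eventually_ge_atTop (1 : ℝ)))
  filter_upwards [h3] with X hX
  obtain ⟨g1, g2⟩ := hX
  have g3 : 0 ≤ Real.log (X : ℝ) := Real.log_nonneg g2
  rw [one_mul, Real.rpow_natCast, Real.norm_of_nonneg (by positivity),
    Real.norm_of_nonneg (by positivity)] at g1
  exact g1

/-- summation over the dyadic ranges -/
theorem dyad (g : ℕ → ℝ) (hg : ∀ m, 0 ≤ g m) (P : ℕ → Prop) [DecidablePred P]
    (hP : ∀ m, P m → 2 ≤ m) (K : ℝ) (hK : 0 ≤ K) (X : ℕ)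
    (hb : ∀ x m : ℕ, x ≤ X → P m → x < m → m ≤ 2 * x → ∑ m ∈ Ioc x (2 * x), g m ≤ K * x) :
    ∀ x : ℕ, x ≤ X → ∑ m ∈ (Icc 1 x).filter P, g m ≤ 4 * K * x := by
  intro x
  induction x using Nat.strong_induction_on with
  | _ x ih =>
    intro hx
    rcases Nat.lt_or_ge x 2 with h2 | h2
    · have : (Icc 1 x).filter P = ∅ := by
        rw [filter_eq_empty_iff]
        intro m hm hPm
        have := hP m hPm
        rw [mem_Icc] at hm
        omega
      rw [this, sum_empty]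
      positivity
    · obtain ⟨y, hy⟩ : ∃ y, y = (x + 1) / 2 := ⟨_, rfl⟩
      have hyx : y < x := by omega
      have h2y : x ≤ 2 * y := by omega
      have hyr : (2 : ℝ) * y ≤ x + 1 := by
        have : 2 * y ≤ x + 1 := by omega
        exact_mod_cast this
      have h2r : (2 : ℝ) ≤ x := by exact_mod_cast h2
      have h1 := ih y hyx (by omega)
      have hsplit : (Icc 1 x).filter P = (Icc 1 y).filter P ∪ (Ioc y x).filter P := by
        ext m
        simp only [mem_filter, mem_Icc, mem_union, mem_Ioc]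
        constructor
        · rintro ⟨⟨a1, a2⟩, a3⟩
          rcases Nat.lt_or_ge y m with h | h
          · exact Or.inr ⟨⟨h, a2⟩, a3⟩
          · exact Or.inl ⟨⟨a1, h⟩, a3⟩
        · rintro (⟨⟨a1, a2⟩, a3⟩ | ⟨⟨a1, a2⟩, a3⟩)
          · exact ⟨⟨a1, by omega⟩, a3⟩
          · exact ⟨⟨by omega, a2⟩, a3⟩
      have hdisj : Disjoint ((Icc 1 y).filter P) ((Ioc y x).filter P) := by
        rw [disjoint_left]
        intro m hm hm2
        rw [mem_filter, mem_Icc] at hm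
        rw [mem_filter, mem_Ioc] at hm2
        omega
      rw [hsplit, sum_union hdisj]
      have h3 : ∑ m ∈ (Ioc y x).filter P, g m ≤ K * y := by
        rcases (Ioc y x).filter P |>.eq_empty_or_nonempty with h | ⟨m, hm⟩
        · rw [h, sum_empty]
          positivity
        · rw [mem_filter, mem_Ioc] at hm
          refine le_trans ?_ (hb y m (by omega) hm.2 hm.1.1 (by omega))
          refine sum_le_sum_of_subset_of_nonneg ?_ fun m _ _ => hg m
          intro m hm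
          rw [mem_filter, mem_Ioc] at hm
          rw [mem_Ioc]
          omega
      have h4 : K * (5 * y) ≤ K * (4 * x) := mul_le_mul_of_nonneg_left (by linarith) hK
      linarith

/-- one dyadic range -/
theorem block {x Y V : ℕ} {Q : ℝ} (hx : 1 < x) (hQ : 0 < Q) (hQx : Q ≤ Real.log x)
    (h : ∑ m ∈ Ioc x (2 * x), ‖∑ n ∈ Ioc m (m + Y),
      (ArithmeticFunction.vonMangoldt n : ℂ) * e (((0 : ℕ) : ℝ) * n / ((1 : ℕ) : ℝ)) - cc 1 0 * Y‖ ^ 2
        ≤ x * (Y : ℝ) ^ 2 / Real.log x ^ (2 * V)) :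
    ∑ m ∈ Ioc x (2 * x), |∑ n ∈ Ioc m (m + Y), ArithmeticFunction.vonMangoldt n - Y|
      ≤ Y / Q ^ V * x := by
  have hcc : cc 1 0 = 1 := by
    unfold cc
    simp [e_zero]
  have hterm : ∀ m : ℕ, ‖∑ n ∈ Ioc m (m + Y),
      (ArithmeticFunction.vonMangoldt n : ℂ) * e (((0 : ℕ) : ℝ) * n / ((1 : ℕ) : ℝ)) - cc 1 0 * Y‖
      = |∑ n ∈ Ioc m (m + Y), ArithmeticFunction.vonMangoldt n - Y| := by
    intro m
    have h1 : ∑ n ∈ Ioc m (m + Y),
        (ArithmeticFunction.vonMangoldt n : ℂ) * e (((0 : ℕ) : ℝ) * n / ((1 : ℕ) : ℝ))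
        = ((∑ n ∈ Ioc m (m + Y), ArithmeticFunction.vonMangoldt n : ℝ) : ℂ) := by
      push_cast
      refine sum_congr rfl fun n _ => ?_
      rw [zero_mul, zero_div, e_zero, mul_one]
    rw [h1, hcc, one_mul]
    rw [show ((∑ n ∈ Ioc m (m + Y), ArithmeticFunction.vonMangoldt n : ℝ) : ℂ) - (Y : ℂ)
      = (((∑ n ∈ Ioc m (m + Y), ArithmeticFunction.vonMangoldt n : ℝ) - Y : ℝ) : ℂ) by push_cast; rfl]
    rw [Complex.norm_real, Real.norm_eq_abs]
  simp only [hterm] at h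
  have hx0 : (0 : ℝ) < x := by exact_mod_cast (by omega : 0 < x)
  have hlog : 0 < Real.log x := lt_of_lt_of_le hQ hQx
  have hcs := sq_sum_le_card_mul_sum_sq (s := Ioc x (2 * x))
    (f := fun m => |∑ n ∈ Ioc m (m + Y), ArithmeticFunction.vonMangoldt n - Y|)
  have hcard : ((Ioc x (2 * x)).card : ℝ) = x := by
    rw [Nat.card_Ioc]
    have : 2 * x - x = x := by omega
    rw [this]
  rw [hcard] at hcs
  have h3 : (∑ m ∈ Ioc x (2 * x), |∑ n ∈ Ioc m (m + Y), ArithmeticFunction.vonMangoldt n - Y|) ^ 2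
      ≤ (Y / Real.log x ^ V * x) ^ 2 := by
    refine hcs.trans ?_
    calc (x : ℝ) * ∑ m ∈ Ioc x (2 * x),
          |∑ n ∈ Ioc m (m + Y), ArithmeticFunction.vonMangoldt n - Y| ^ 2
        ≤ x * (x * (Y : ℝ) ^ 2 / Real.log x ^ (2 * V)) := by gcongr
      _ = (Y / Real.log x ^ V * x) ^ 2 := by
          rw [mul_comm 2 V, pow_mul]
          field_simp
  have h4 := abs_le_of_sq_le_sq h3 (by positivity)
  have h5 := (le_abs_self _).trans h4
  refine h5.trans ?_
  gcongr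

theorem msx (hS : S_SIA) : S_MSX := by
  intro D U
  obtain ⟨V, hV⟩ : ∃ V, V = U + 1 := ⟨_, rfl⟩
  obtain ⟨C, X1, hC⟩ := hS 0 (2 * V)
  have tend : Tendsto (fun X : ℕ => Real.log (X : ℝ)) atTop atTop :=
    Real.tendsto_log_atTop.comp tendsto_natCast_atTop_atTop
  have tend2 : Tendsto (fun X : ℕ => (X : ℝ) ^ (1 / 2 : ℝ)) atTop atTop :=
    (tendsto_rpow_atTop (by norm_num)).comp tendsto_natCast_atTop_atTop
  have ev1 := tend.eventually_ge_atTop (4 * 2 ^ V + 4 : ℝ)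
  have ev2 := ev_logpow (D + 1) (a := 1 / 2) (by norm_num)
  have ev3 := ev_logpow C (a := 1 / 15) (by norm_num)
  have ev4 := tend2.eventually_ge_atTop (X1 + 2 : ℝ)
  obtain ⟨X₀, hX₀⟩ := eventually_atTop.1 (ev1.and (ev2.and (ev3.and ev4)))
  refine ⟨X₀ + 2, fun X hX Y hY1 hY2 => ?_⟩
  obtain ⟨g1, g2, g3, g4⟩ := hX₀ X (by omega)
  have hXr : (2 : ℝ) ≤ X := by exact_mod_cast (show 2 ≤ X by omega)
  have hX0 : (0 : ℝ) < X := by linarith
  obtain ⟨L, hL⟩ : ∃ L, L = Real.log X := ⟨_, rfl⟩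
  rw [← hL] at g1 g2 g3 hY2 ⊢
  have h2V : (1 : ℝ) ≤ 2 ^ V := one_le_pow₀ (by norm_num)
  have hL4 : 4 ≤ L := by linarith
  have hL0 : 0 < L := by linarith
  -- the blocks
  have hsqrt : (X : ℝ) ^ (1 / 2 : ℝ) * (X : ℝ) ^ (1 / 2 : ℝ) = X := by
    rw [← Real.rpow_add hX0]
    norm_num
  have hLD : 0 < L ^ D := by positivity
  have hblock : ∀ x m : ℕ, x ≤ X → (X : ℝ) ≤ m * L ^ D → x < m → m ≤ 2 * x →
      ∑ m ∈ Ioc x (2 * x), |∑ n ∈ Ioc m (m + Y), ArithmeticFunction.vonMangoldt n - Y|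
        ≤ Y / (L / 2) ^ V * x := by
    intro x m hxX hm _ hm2
    have hmr : (m : ℝ) ≤ 2 * x := by exact_mod_cast hm2
    have hxX' : (x : ℝ) ≤ X := by exact_mod_cast hxX
    have h1 : (X : ℝ) ≤ 2 * x * L ^ D := hm.trans (by gcongr)
    have h1' : (X : ℝ) * L ≤ 2 * x * L ^ (D + 1) := by
      rw [pow_succ, ← mul_assoc]
      exact mul_le_mul_of_nonneg_right h1 hL0.le
    have hx2 : (X : ℝ) ^ (1 / 2 : ℝ) ≤ x := by
      have h2 : (X : ℝ) ^ (1 / 2 : ℝ) * ((X : ℝ) ^ (1 / 2 : ℝ) * L) ≤ (2 * x) * (X : ℝ) ^ (1 / 2 : ℝ) := by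
        rw [← mul_assoc, hsqrt]
        refine h1'.trans ?_
        gcongr
      have h3 : 0 < (X : ℝ) ^ (1 / 2 : ℝ) := Real.rpow_pos_of_pos hX0 _
      have h4 : (X : ℝ) ^ (1 / 2 : ℝ) * L ≤ 2 * x := by
        rw [mul_comm (2 * (x : ℝ))] at h2
        exact le_of_mul_le_mul_left h2 h3
      have h5 : (X : ℝ) ^ (1 / 2 : ℝ) * 2 ≤ (X : ℝ) ^ (1 / 2 : ℝ) * L := by gcongr; linarith
      linarith
    have hxX1 : X1 + 2 ≤ x := by exact_mod_cast g4.trans hx2
    have hx0 : (0 : ℝ) < x := by exact_mod_cast (by omega : 0 < x)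
    have hlogx : L / 2 ≤ Real.log x := by
      have := Real.log_le_log (Real.rpow_pos_of_pos hX0 _) hx2
      rw [Real.log_rpow hX0, ← hL] at this
      linarith
    have hlogx2 : Real.log x ≤ L := by
      rw [hL]
      exact Real.log_le_log hx0 hxX'
    have hYx : Y ≤ x := by
      have h2 : (Y : ℝ) * L ^ (D + 1) ≤ 2 * x * L ^ D := hY2.trans h1
      have h3 : (Y : ℝ) * L ≤ 2 * x := by
        rw [pow_succ] at h2
        have h4 : ((Y : ℝ) * L) * L ^ D ≤ (2 * x) * L ^ D := by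
          calc ((Y : ℝ) * L) * L ^ D = Y * (L ^ D * L) := by ring
            _ ≤ _ := h2
        exact le_of_mul_le_mul_right h4 hLD
      have h5 : (Y : ℝ) * 2 ≤ Y * L := by gcongr; linarith
      have h6 : (Y : ℝ) ≤ x := by linarith
      exact_mod_cast h6
    have h7 := (hC x (by omega) 1 le_rfl (by simp) 0 Y (by
      calc (x : ℝ) ^ (1 / 3 : ℝ) * Real.log x ^ C ≤ (X : ℝ) ^ (1 / 3 : ℝ) * L ^ C := by
            have : 0 ≤ Real.log x := by linarith
            gcongr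
        _ ≤ (X : ℝ) ^ (1 / 3 : ℝ) * (X : ℝ) ^ (1 / 15 : ℝ) := by gcongr
        _ = (X : ℝ) ^ (2 / 5 : ℝ) := by
            rw [← Real.rpow_add hX0]
            norm_num
        _ ≤ Y := hY1) hYx).1
    exact block (by omega) (by linarith) hlogx h7
  have hd := dyad (fun m => |∑ n ∈ Ioc m (m + Y), ArithmeticFunction.vonMangoldt n - Y|)
    (fun m => abs_nonneg _) (fun m : ℕ => (X : ℝ) ≤ m * L ^ D) (by
      intro m hm
      by_contra hcon
      have hm1 : (m : ℝ) ≤ 1 := by exact_mod_cast (by omega : m ≤ 1)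
      have h1 : (X : ℝ) ≤ L ^ D := by
        calc (X : ℝ) ≤ m * L ^ D := hm
          _ ≤ 1 * L ^ D := by gcongr
          _ = L ^ D := one_mul _
      have h2 : (X : ℝ) * 4 ≤ (X : ℝ) ^ (1 / 2 : ℝ) := by
        calc (X : ℝ) * 4 ≤ L ^ D * L := by gcongr
          _ = L ^ (D + 1) := (pow_succ _ _).symm
          _ ≤ _ := g2
      have h3 : (X : ℝ) ^ (1 / 2 : ℝ) ≤ (X : ℝ) ^ (1 : ℝ) :=
        Real.rpow_le_rpow_of_exponent_le (by linarith) (by norm_num)
      rw [Real.rpow_one] at h3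
      linarith)
    (Y / (L / 2) ^ V) (by positivity) X hblock X le_rfl
  refine hd.trans ?_
  rw [hV, pow_succ]
  have h8 : 4 * (Y / ((L / 2) ^ U * (L / 2))) * X = (X * Y / L ^ U) * (8 * 2 ^ U / L) := by
    rw [div_pow]
    field_simp
    ring
  rw [h8]
  have h9 : 8 * 2 ^ U / L ≤ 1 := by
    rw [div_le_one hL0]
    rw [hV, pow_succ] at g1
    linarith
  calc X * (Y : ℝ) / L ^ U * (8 * 2 ^ U / L) ≤ X * (Y : ℝ) / L ^ U * 1 := by gcongr
    _ = _ := mul_one _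

end Run7.h56.PA
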